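import Pool.Agent.Lib.KR86.Sec1
import Pool.Agent.Lib.KR39.CL
import Pool.Agent.Lib.KR88.Mean
import Pool.Agent.Lib.KR94.Hol

/-! The two analytic inputs of section 1, when the volume of the canonical class vanishes. -/

open scoped Topology ContDiff ComplexOrder Matrix ENNReal
open Filter Complex Set MeasureTheory

noncomputable section

namespace Pool.Agent.Lib.K86

open Pool.Agent.Lib.SV (E)
open Pool.Agent.Lib.HS32 Pool.Agent.Lib.HS32.Mf Pool.Agent.Lib.KR91

variable {n : ℕ}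

lemma of_dq {H T : Mat n} {R : E n → E n → E n → E n → ℂ} {a be c t : ℝ} (hb : 0 < be) {v : E n}
    (h : c * t ≤ dq (sf H) (sf T) R a be v) :
    (R v v v v).re + c / be * t ≤ 2 * (a / (2 * be)) * (nq T v * nq H v) := by
  have e : dq (sf H) (sf T) R a be v = a * nq T v * nq H v - be * (R v v v v).re := rfl
  refine le_of_mul_le_mul_left ?_ hb
  rw [show be * (2 * (a / (2 * be)) * (nq T v * nq H v)) = a * nq T v * nq H v by field_simp,
    mul_add, show be * (c / be * t) = c * t by field_simp]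
  linarith

/-- A member of the family of metrics with its bounds. -/
structure Fm (M : Mf n) (H : M.Fam (Mat n)) (lam C T : ℝ) (G : M.Fam (Mat n))
    (φ Y : M.X → ℝ) : Prop where
  kae : M.Kae G
  sp : M.Sm φ
  sy : M.Sm Y
  le : ∀ x, φ x ≤ 0
  mean : ∫ x, Real.exp (φ x) * Y x ∂M.mu H ≤ C
  sub : ∀ L : ℝ, 0 < L → (M.mu H).real {x | φ x ≤ -L} ≤ C / L
  grad : ∫ x, Real.exp (φ x) * M.gr H φ φ x ∂M.mu H ≤ C
  trc : ∫ x, M.tr H G x ∂M.mu H ≤ C
  cl : M.All fun e z => (K39.et M G H e z + K39.qp M G H lam e z) / M.tr G H (e.symm z) ≤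
    Y (e.symm z)
  big : ∀ x, T ≤ M.tr G H x

variable {M : Mf n} [M.Cpt] {H : M.Fam (Mat n)} {lam al be : ℝ}

lemma fam (hA : HS.St_AUBIN) (hn : 0 < n) (hH : M.Kae H) (hl : 0 < lam) (hw : K39.Tw M H lam)
    (h0 : M.vol H 0 = 0) : ∃ C : ℝ, 0 < C ∧ ∀ T, ∃ G φ Y, Fm M H lam C T G φ Y := by
  have hB := (K39.clo_eta hH.toMet).smul lam
  obtain ⟨C, C0, hC⟩ := K88.phi hH hB
  obtain ⟨N, hN⟩ : ∃ N, N = 1 + lam / (1 + lam) * n := ⟨_, rfl⟩
  have N1 : 1 ≤ N := hN ▸ le_add_of_nonneg_right (by positivity)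
  have v0 : ∫ x, M.dq H (lam • -M.ric H - M.ric H) x ∂M.mu H = 0 := by
    rw [show lam • -M.ric H - M.ric H = (1 + lam) • ((0 : ℝ) • H - M.ric H) by module]
    simp only [dq_smul]
    rw [integral_const_mul, show ∫ x, _ ∂M.mu H = M.vol H 0 from rfl, h0, mul_zero]
  have CN : C ≤ C * N := le_mul_of_one_le_right C0.le N1
  refine ⟨C * N, by positivity, fun T => ?_⟩
  obtain ⟨ε, h1, hε⟩ := ((K88.blow hn hH hB v0 T).and (Ioc_mem_nhdsGT (zero_lt_one' ℝ))).exists
  obtain ⟨u, hu⟩ := K39.exists_sol hA hn hH hl hw hB (Le.refl _) hε.1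
  obtain ⟨a, hp, -⟩ := hC ε hε u hu
  have sy := K39.sm_y hn hu.kae hH hu.sm (lam / (1 + lam))
  have s1 : M.Sm fun x => u x - a := hu.sm.sub (sm_const _)
  refine ⟨_, fun x => u x - a, fun x => N + M.lap _ _ x, hu.kae, s1,
    (sm_const _).add ((mLAP n M _ _ sy sy).2.2 _ hu.kae.toMet).1, fun x => sub_nonpos.2 (hp.le x),
    hp.mean _ sy N (by linarith), fun L L0 => (hp.sub L L0).trans (by gcongr), ?_,
    hp.trc.trans CN, fun e he z hz => ?_, h1 u hu⟩
  · refine le_trans (le_of_eq ?_) (hp.grad.trans CN)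
    have k : ∀ g, M.Sm g → ∀ x, M.gr H (fun x => u x - a) g x = M.gr H u g x := fun g hg x => by
      rw [(((mLAP n M u g hu.sm hg).2.2 H hH.toMet).2.2.2.1 (fun s => s - a)
        (fun _ => contDiffAt_id.sub contDiffAt_const) x).2, deriv_sub_const, deriv_id'', one_mul]
    congr 1
    funext x
    rw [k _ s1, (((mLAP n M u _ hu.sm s1).2.2 H hH.toMet).2.2.1 x 0).2.2.2.2.2.1, k _ hu.sm]
  · have k := K39.clp hn hH hl.le hε.1.le (Le.refl _) hu e he z hz
    have p := (K39.clg n M _ H hu.kae hH).2.1 hn (e.symm z)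
    have : 0 ≤ lam / (1 + lam) * (ε * M.tr (M.gB H (lam • -M.ric H) ε u) H (e.symm z)) := by
      have := hε.1
      positivity
    beta_reduce at k ⊢
    linarith

/-- The lower bounds of the twisted curvature vanish. -/
theorem null (hA : HS.St_AUBIN) (hn : 0 < n) (hH : M.Kae H) (h0 : M.vol H 0 = 0) {a : ℝ}
    (ha : 0 < a) (hb : 0 < be) (c : M.X → ℝ) (hc : M.Sm c) (c0 : ∀ x, 0 ≤ c x)
    (hD : M.All fun e z => ∀ X, c (e.symm z) * nq (H e z) X ^ 2 ≤
      dq (sf (H e z)) (sf (-M.ric H e z)) (rm (H e) z) a be X) (x : M.X) : c x ≤ 0 := by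
  obtain ⟨-, hf, ho, -, hi, -⟩ := mMU n M H hH.toMet
  have hw : K39.Tw M H (a / (2 * be)) := fun e he z hz v => by
    have := of_dq hb (hD e he z hz v)
    have := c0 (e.symm z)
    have : 0 ≤ c (e.symm z) / be * nq (H e z) v ^ 2 := by positivity
    linarith
  obtain ⟨C, C0, hC⟩ := fam hA hn hH (by positivity) hw h0
  obtain ⟨m, m0, hm⟩ := hc.exists_bound
  have ic := hi ℝ _ hc.continuous
  have key : ∀ L : ℝ, 0 < L → ∀ T : ℝ, 0 < T →
      ∫ x, c x ∂M.mu H ≤ Real.exp L * (2 * be * C) / T + m * C / L := fun L L0 T T0 => by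
    obtain ⟨G, φ, Y, h⟩ := hC T
    have ms : MeasurableSet {x | φ x ≤ -L} :=
      (isClosed_le h.sp.continuous continuous_const).measurableSet
    have i1 := (hi ℝ _ (h.sp.exp.mul h.sy).continuous).const_mul (Real.exp L * (2 * be) / T)
    have i2 := (integrable_const (μ := M.mu H) m).indicator ms
    have k := integral_mono ic (i1.add i2) fun x => by
      have k1 := AllOn.ch h.cl x
      have k2 := AllOn.ch (K39.et_nonneg hn h.kae hH) x
      have k3 := K39.qp_ge_tr h.kae.toMet hH (ch_mem x) ((M.ch x).map_source (mem_ch x))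
        (div_nonneg (c0 _) hb.le) fun v => of_dq hb (AllOn.ch hD x v)
      rw [ch_symm] at k1 k3
      have k4 := h.big x
      have k5 := c0 x
      rw [div_le_iff₀ (by linarith)] at k1
      have k6 : c x / be / 2 * M.tr G H x ≤ Y x :=
        le_of_mul_le_mul_right (by nlinarith) (show 0 < M.tr G H x by linarith)
      have k7 : c x ≤ 2 * be / T * Y x := by
        rw [div_mul_eq_mul_div, le_div_iff₀ T0]
        have : c x / be / 2 * T ≤ Y x := le_trans (by gcongr) k6
        rwa [div_div, div_mul_eq_mul_div, div_le_iff₀ (by positivity), mul_comm (Y x),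
          mul_comm be] at this
      have k8 : 0 ≤ Y x := le_trans (mul_nonneg (by positivity) (by linarith)) k6
      simp only [Pi.add_apply]
      by_cases k9 : φ x ≤ -L
      · rw [indicator_of_mem (show x ∈ {x | φ x ≤ -L} from k9)]
        exact le_add_of_nonneg_of_le (by positivity) ((le_abs_self _).trans (hm x))
      · rw [indicator_of_notMem (show x ∉ {x | φ x ≤ -L} from k9), add_zero,
          show Real.exp L * (2 * be) / T * (Real.exp (φ x) * Y x) =
            Real.exp (L + φ x) * (2 * be / T * Y x) by rw [Real.exp_add]; ring]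
        exact k7.trans (le_mul_of_one_le_left (by positivity) (Real.one_le_exp (by linarith)))
    rw [integral_add' i1 i2, integral_const_mul, integral_indicator_const _ ms, smul_eq_mul] at k
    have k1 := mul_le_mul_of_nonneg_left h.mean (show 0 ≤ Real.exp L * (2 * be) / T by positivity)
    have k2 := mul_le_mul_of_nonneg_right (h.sub L L0) m0.le
    calc _ ≤ Real.exp L * (2 * be) / T * C + C / L * m := by linarith
      _ = _ := by ring
  have z1 : ∀ L : ℝ, 0 < L → ∫ x, c x ∂M.mu H ≤ 0 + m * C / L := fun L L0 =>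
    ge_of_tendsto ((tendsto_const_nhds.div_atTop tendsto_id).add_const _)
      ((eventually_gt_atTop 0).mono (key L L0))
  have z2 : ∫ x, c x ∂M.mu H ≤ 0 + 0 :=
    ge_of_tendsto ((tendsto_const_nhds.div_atTop tendsto_id).const_add _)
      ((eventually_gt_atTop 0).mono z1)
  by_contra k
  have := hc.continuous.integral_pos_of_hasCompactSupport_nonneg_nonzero (μ := M.mu H)
    (HasCompactSupport.of_compactSpace c) c0 (not_le.1 k).ne'
  linarith

section alg

variable {G H : E n → Mat n} {V : E n → E n} {z : E n}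

lemma pN_alg (hG : (G z).PosDef) (hH : (H z).PosDef) (h0 : V z ≠ 0) :
    (H z * K94.pN H V z).IsHermitian ∧
    (∀ X, nq (H z * K94.pN H V z) X =
      nq (H z) X - normSq (star (V z) ⬝ᵥ H z *ᵥ X) / nq (H z) (V z)) ∧
    (K94.sS G H z ≠ 0 →
      ((G z)⁻¹ * (H z * K94.pN H V z)).trace.re = K94.sS G H z * K94.qV G H V z) := by
  obtain ⟨-, p2, -, -, p5⟩ := K94.pN_prop hH h0
  have p : 0 < nq (H z) (V z) := hH.re_dotProduct_pos h0
  refine ⟨by rw [Matrix.IsHermitian, Matrix.conjTranspose_mul, hH.1.eq, p2], fun X => ?_,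
    fun s => ?_⟩
  · have e : star X ⬝ᵥ H z *ᵥ V z = star (star (V z) ⬝ᵥ H z *ᵥ X) := by
      rw [Matrix.star_dotProduct, Matrix.star_mulVec, hH.1.eq, Matrix.dotProduct_mulVec]
    rw [K94.pN, K94.nq_eq hH.posSemidef, nq, Matrix.mul_sub, Matrix.mul_one, Matrix.sub_mulVec,
      dotProduct_sub, sub_re, Matrix.mul_smul, Matrix.smul_mulVec, dotProduct_smul,
      ← Matrix.mulVec_mulVec, ← Matrix.mulVec_mulVec, Matrix.vecMulVec_mulVec, Matrix.mulVec_smul,
      dotProduct_smul, e, ← ofReal_inv, smul_eq_mul, re_ofReal_mul, div_eq_inv_mul]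
    simp [← normSq_eq_conj_mul_self, nq]
  · have s1 := hG.inv.posSemidef.mul_mul_conjTranspose_same (H z)
    rw [hH.1.eq] at s1
    have k := congrArg re (p5 (G z)⁻¹).1
    rw [K94.nq_eq s1, K94.nq_eq hH.posSemidef, Matrix.sub_mul, Matrix.one_mul, Matrix.trace_sub,
      sub_re, ← ofReal_div, ofReal_re, Matrix.trace_mul_comm (K94.pN H V z), Matrix.mul_assoc] at k
    rw [K94.qV, mul_sub, mul_one, ← div_div, mul_div_cancel₀ _ s, ← k, K94.sS, sub_sub_cancel]

end alg

lemma chart (hH : M.Met H) {e : M.Ch} (he : e ∈ M.C) {K : Set (E n)} (hK : IsCompact K)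
    (h : K ⊆ e.target) : ∃ D : ℝ, 0 < D ∧ ∀ B ⊆ K, MeasurableSet B → ∀ f : M.X → ℝ≥0∞,
      ∫⁻ z in B, f (e.symm z) ≤ ENNReal.ofReal D * ∫⁻ x in e.symm '' B, f x ∂M.mu H := by
  obtain ⟨D, D1, hD⟩ := (mBD n M H hH).2.2.1 e he K hK h
  refine ⟨D, by linarith, fun B hB mB f => ?_⟩
  rw [((mMU n M H hH).2.2.2.2.2.1 e he B mB (hB.trans h)).2.1 f,
    ← lintegral_const_mul' _ _ ENNReal.ofReal_ne_top]
  refine setLIntegral_mono' mB fun z hz => ?_
  rw [← mul_assoc, ← ENNReal.ofReal_mul (by linarith)]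
  refine le_mul_of_one_le_left' (ENNReal.one_le_ofReal.2 ?_)
  exact (inv_le_iff_one_le_mul₀' (by linarith)).1 (hD z (hB hz)).2.2.1

/-- A smooth field of null directions with a gap is holomorphic. -/
theorem hol (hA : HS.St_AUBIN) (hn : 0 < n) (hH : M.Kae H) (h0 : M.vol H 0 = 0) (ha : 0 < al)
    (hb : 0 < be)
    (hD : M.All fun e z => ∀ X, 0 ≤ dq (sf (H e z)) (sf (-M.ric H e z)) (rm (H e) z) al be X)
    (e : M.Ch) (he : e ∈ M.C) (z : E n) (hz : z ∈ e.target) (V : E n → E n) (i : Fin n) (κ : ℝ)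
    (hκ : 0 < κ) (hV : ∀ᶠ w in 𝓝 z, ContDiffAt ℝ ∞ V w ∧ V w i = 1 ∧ ∀ X,
      κ * (nq (H e w) X - normSq (star (V w) ⬝ᵥ H e w *ᵥ X) / nq (H e w) (V w)) ^ 2 ≤
        dq (sf (H e w)) (sf (-M.ric H e w)) (rm (H e) w) al be X) :
    ∀ᶠ w in 𝓝 z, ∀ l j, dzb l (fun y => V y j) w = 0 := by
  obtain ⟨-, hf, -, -, hi, -⟩ := mMU n M H hH.toMet
  have hw : K39.Tw M H (al / (2 * be)) := fun e he z hz v => by
    simpa using of_dq (c := 0) (t := 0) hb ((zero_mul _).trans_le (hD e he z hz v))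
  obtain ⟨C, C0, hC⟩ := fam hA hn hH (by positivity) hw h0
  choose G φ Y h using hC
  obtain ⟨U, hU, oU, zU⟩ := eventually_nhds_iff.1 (hV.and (e.open_target.mem_nhds hz))
  have tr : ∀ A B, M.Met A → M.Ten B → ∀ w ∈ e.target,
      M.tr A B (e.symm w) = ((A e w)⁻¹ * B e w).trace.re :=
    fun A B h1 h2 => ((mINV n M A h1).1 B h2).1 e he
  refine mem_of_superset (oU.mem_nhds zU) (K94.hol (atTop : Filter ℝ) oU (H := H e) (i₀ := i)
    (G := fun T => G T e) (φ := fun T w => φ T (e.symm w))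
    (fun w hw => HS68.met_loc hH.toMet he (hU w hw).2) (fun w hw => ⟨(hU w hw).1.1, (hU w hw).1.2.1⟩)
    (Eventually.of_forall fun T w hw => ⟨HS68.met_loc (h T).kae.toMet he (hU w hw).2,
      (h T).sp e he w (hU w hw).2, (h T).le _⟩) fun K cK KU => ?_)
  have Kt : K ⊆ e.target := fun w hw => (hU w (KU hw)).2
  obtain ⟨D, D0, hd⟩ := chart hH.toMet he cK Kt
  have S := fun T => K39.clg n M _ H (h T).kae hH
  have g := fun T => (mLAP n M _ _ (h T).sp (h T).sp).2.2 H hH.toMet
  have t0 : ∀ T x, 0 ≤ M.tr H (G T) x := fun T => hH.toMet.tr_nonneg (h T).kae.toMet.nonneg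
  have y0 : ∀ T x, 0 ≤ Y T x := fun T x => by
    have k := AllOn.ch (h T).cl x
    rw [ch_symm] at k
    exact le_trans (div_nonneg (add_nonneg (AllOn.ch (K39.et_nonneg hn (h T).kae hH) x)
      (AllOn.ch (K39.qp_nonneg (h T).kae.toMet hH hw) x)) ((S T).2.1 hn x).le) k
  have g0 : ∀ T x, 0 ≤ M.gr H (φ T) (φ T) x := fun T x => ((g T).2.2.1 x 0).2.2.2.2.2.2.1
  obtain ⟨F, hF, iF⟩ : ∃ F : ℝ → M.X → ℝ, (∀ T x, F T x = M.tr H (G T) x +
      Real.exp (φ T x) * Y T x + Real.exp (φ T x) * M.gr H (φ T) (φ T) x) ∧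
      ∀ T, ∫⁻ w in K, ENNReal.ofReal (F T (e.symm w)) ≤ ENNReal.ofReal (D * (3 * C)) := by
    refine ⟨fun T => M.tr H (G T) + (fun x => Real.exp (φ T x) * Y T x) + fun x =>
      Real.exp (φ T x) * M.gr H (φ T) (φ T) x, fun _ _ => rfl, fun T => ?_⟩
    have i1 := hi ℝ _ ((mINV n M H hH.toMet).1 _ (h T).kae.toTen).2.1.continuous
    have i2 := hi ℝ _ ((h T).sp.exp.mul (h T).sy).continuous
    have i3 := hi ℝ _ ((h T).sp.exp.mul (g T).2.1).continuous
    refine (hd K Subset.rfl cK.measurableSet fun x => ENNReal.ofReal _).trans ?_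
    rw [ENNReal.ofReal_mul D0.le]
    refine mul_le_mul_right ((setLIntegral_le_lintegral _ _).trans ?_) _
    rw [← ofReal_integral_eq_lintegral_ofReal ((i1.add i2).add i3)
      (Eventually.of_forall fun x => add_nonneg (add_nonneg (t0 T x)
        (mul_nonneg (Real.exp_pos _).le (y0 T x))) (mul_nonneg (Real.exp_pos _).le (g0 T x))),
      integral_add' (i1.add i2) i3, integral_add' i1 i2]
    exact ENNReal.ofReal_le_ofReal (by linarith [(h T).trc, (h T).mean, (h T).grad])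
  refine ⟨D * (3 * C), fun T w => F T (e.symm w),
    Eventually.of_forall fun T => ⟨fun w hz => ?_, iF T, fun A A0 => ?_⟩, ?_⟩
  · have k := (h T).cl e he w (Kt hz)
    have k1 := K39.qp_nonneg (h T).kae.toMet hH hw e he w (Kt hz)
    have s1 : K94.sS (G T e) (H e) =ᶠ[𝓝 w] fun y => M.tr (G T) H (e.symm y) :=
      (e.open_target.eventually_mem (Kt hz)).mono fun y hy =>
        (tr _ _ (h T).kae.toMet hH.toTen y hy).symm
    have s2 : (fun y => (K94.sS (G T e) (H e) y : ℂ)) =ᶠ[𝓝 w] M.lc (M.tr (G T) H) e :=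
      s1.mono fun y hy => congrArg _ hy
    have s3 : K94.eT (G T e) (H e) w = K39.et M (G T) H e w := by
      rw [K94.eT, K94.gN, dd_congr s2 s2, s1.eq_of_nhds, K39.et, gr,
        tr _ _ (h T).kae.toMet ((mHES n M).2.1 _ _ (S T).1 (S T).1).1 w (Kt hz)]
      rfl
    beta_reduce
    rw [hF, tr _ _ hH.toMet (h T).kae.toTen w (Kt hz), gr,
      tr _ _ hH.toMet ((mHES n M).2.1 _ _ (h T).sp (h T).sp).1 w (Kt hz), s3, s1.eq_of_nhds]
    refine add_le_add (add_le_add le_rfl (mul_le_mul_of_nonneg_left (le_trans ?_ k)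
      (Real.exp_pos _).le)) le_rfl
    exact div_le_div_of_nonneg_right (le_add_of_nonneg_right k1) ((S T).2.1 hn _).le
  · have o : IsOpen (e.target ∩ e.symm ⁻¹' {x | φ T x < -A}) :=
      e.isOpen_inter_preimage_symm (isOpen_lt (h T).sp.continuous continuous_const)
    have k := hd {w | w ∈ K ∧ φ T (e.symm w) < -A} (fun w hz => hz.1) (by
      convert cK.measurableSet.inter o.measurableSet using 1
      exact Set.ext fun w => ⟨fun k => ⟨k.1, Kt k.1, k.2⟩, fun k => ⟨k.1, k.2.2⟩⟩) fun _ => 1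
    rw [setLIntegral_one, setLIntegral_one] at k
    refine k.trans ?_
    rw [mul_div_assoc, ENNReal.ofReal_mul D0.le]
    refine mul_le_mul_right ((measure_mono (t := {x | φ T x ≤ -A}) ?_).trans ?_) _
    · rintro _ ⟨w, hz, rfl⟩
      exact hz.2.le
    · rw [← ofReal_measureReal]
      exact ENNReal.ofReal_le_ofReal (((h T).sub A A0).trans (by gcongr; linarith))
  · have l : Tendsto (fun T : ℝ => ENNReal.ofReal (2 * be / κ / T) * ENNReal.ofReal (D * (3 * C)))
        atTop (𝓝 0) := by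
      simpa using ENNReal.Tendsto.mul_const (b := ENNReal.ofReal (D * (3 * C)))
        (ENNReal.tendsto_ofReal ((tendsto_const_nhds (x := 2 * be / κ)).div_atTop tendsto_id))
        (Or.inr ENNReal.ofReal_ne_top)
    refine tendsto_of_tendsto_of_tendsto_of_le_of_le' tendsto_const_nhds l
      (Eventually.of_forall fun _ => zero_le) ((eventually_gt_atTop 0).mono fun T T0 => ?_)
    refine le_trans ?_ (mul_le_mul_right (iF T) _)
    rw [← lintegral_const_mul' _ _ ENNReal.ofReal_ne_top]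
    refine setLIntegral_mono' cK.measurableSet fun w hz => ?_
    rw [← ENNReal.ofReal_mul (by positivity)]
    refine ENNReal.ofReal_le_ofReal ?_
    obtain ⟨⟨-, v1, v2⟩, wt⟩ := hU w (KU hz)
    obtain ⟨a1, a2, a3⟩ := pN_alg (G := G T e) (V := V) ((h T).kae.pos e he w wt)
      (hH.pos e he w wt) fun k => by simp [k] at v1
    have k := (h T).cl e he w wt
    have k1 := K39.et_nonneg hn (h T).kae hH e he w wt
    have k2 := K39.qp_ge (h T).kae.toMet hH he wt a1 (div_pos hκ hb).le fun v =>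
      of_dq hb (a2 v ▸ v2 v)
    have k3 := (S T).2.1 hn (e.symm w)
    have k4 := (h T).big (e.symm w)
    beta_reduce at k k1
    rw [tr _ _ (h T).kae.toMet hH.toTen w wt] at k k3 k4
    rw [a3 k3.ne'] at k2
    change 0 < K94.sS (G T e) (H e) w at k3
    change T ≤ K94.sS (G T e) (H e) w at k4
    change _ / K94.sS (G T e) (H e) w ≤ _ at k
    generalize K94.sS (G T e) (H e) w = s at *
    generalize K94.qV (G T e) (H e) V w = q at *
    rw [div_le_iff₀ k3] at k
    have k5 : κ / be / 2 * s * q ^ 2 ≤ Y T (e.symm w) :=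
      le_of_mul_le_mul_right (by nlinarith) k3
    have k6 : q ^ 2 ≤ 2 * be / κ / T * Y T (e.symm w) := by
      have : κ / be / 2 * T * q ^ 2 ≤ Y T (e.symm w) := le_trans (by gcongr) k5
      rwa [← le_div_iff₀' (by positivity), div_eq_inv_mul, show (κ / be / 2 * T)⁻¹ =
        2 * be / κ / T by field_simp] at this
    have k7 := mul_le_mul_of_nonneg_left k6 (Real.exp_pos (φ T (e.symm w))).le
    have k8 := t0 T (e.symm w)
    have k9 := mul_nonneg (Real.exp_pos (φ T (e.symm w))).le (g0 T (e.symm w))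
    rw [mul_left_comm] at k7
    rw [hF]
    exact k7.trans (mul_le_mul_of_nonneg_left (by linarith) (by positivity))

/-- Section 1 when the volume vanishes. -/
theorem sec1_vol (hA : HS.St_AUBIN) (hn : 0 < n) (hH : M.Kae H) (h0 : M.vol H 0 = 0)
    (hP : M.All fun e z => Pk (sf (H e z)) (sf (-M.ric H e z)) (rm (H e) z) al be) :
    M.All fun e z => ∃ v, Nv (sf (H e z)) (sf (-M.ric H e z)) (rm (H e) z) al be v ∧
      (rm (H e) z v v v v).re = 0 := fun e he z hz => by
  have a1 := (hP e he z hz).al1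
  have b1 := (hP e he z hz).be1
  exact sec1 hH hP (fun a k => null hA hn hH h0 (by linarith) (by linarith))
    (hol hA hn hH h0 (by linarith) (by linarith) fun e he z hz => (hP e he z hz).dq_nn) e he z hz

end Pool.Agent.Lib.K86
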