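import Pool.Agent.Lib.HS32.MDefs

/-! The simple negative eigenvector of a smooth Hermitian pencil is smooth. -/

open scoped Topology ContDiff ComplexOrder Matrix
open Filter Complex

noncomputable section

namespace Pool.Agent.Lib.K86

open Pool.Agent.Lib.SV (E)
open Pool.Agent.Lib.HS32

variable {n : ℕ}

/-- `v` is an eigenvector of `A` relative to `H` with negative eigenvalue `c`, and `A` is positive
on the orthogonal complement. -/
structure Neg (A H : Mat n) (v : E n) (c : ℝ) : Prop where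
  ne : v ≠ 0
  neg : c < 0
  eig : A *ᵥ v = (c : ℂ) • H *ᵥ v
  pos : ∀ y, star v ⬝ᵥ H *ᵥ y = 0 → y ≠ 0 → 0 < nq A y

lemma herm_dot {A : Mat n} (hA : A.IsHermitian) (x y : E n) :
    star x ⬝ᵥ A *ᵥ y = star (star y ⬝ᵥ A *ᵥ x) := by
  rw [Matrix.star_dotProduct, Matrix.star_mulVec, hA.eq, ← Matrix.dotProduct_mulVec]

lemma herm_dot' {A : Mat n} (hA : A.IsHermitian) (x y : E n) :
    star x ⬝ᵥ A *ᵥ y = star (A *ᵥ x) ⬝ᵥ y := by
  rw [Matrix.star_mulVec, hA.eq, Matrix.dotProduct_mulVec]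

lemma Neg.left {A H : Mat n} {v : E n} {c : ℝ} (h : Neg A H v c) (hA : A.IsHermitian)
    (hH : H.IsHermitian) (y : E n) : star v ⬝ᵥ A *ᵥ y = c * (star v ⬝ᵥ H *ᵥ y) := by
  rw [herm_dot' hA, herm_dot' hH, h.eig, star_smul, smul_dotProduct]
  simp

lemma Neg.smul {A H : Mat n} {v : E n} {c : ℝ} (h : Neg A H v c) {a : ℂ} (ha : a ≠ 0) :
    Neg A H (a • v) c := by
  refine ⟨smul_ne_zero ha h.ne, h.neg, ?_, fun y hy => h.pos y ?_⟩
  · rw [Matrix.mulVec_smul, Matrix.mulVec_smul, h.eig, smul_comm]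
  · rw [star_smul, smul_dotProduct, smul_eq_zero] at hy
    exact hy.resolve_left (star_ne_zero.2 ha)

/-- Every eigenvector whose eigenvalue has non-positive real part is parallel to `v`. -/
lemma Neg.par {A H : Mat n} {v x : E n} {c : ℝ} {m : ℂ} (h : Neg A H v c) (hH : H.PosDef)
    (hx : A *ᵥ x = m • H *ᵥ x) (hm : m.re ≤ 0) : ∃ a : ℂ, x = a • v := by
  have hv : star v ⬝ᵥ H *ᵥ v ≠ 0 := (hH.dotProduct_mulVec_pos h.ne).ne'
  obtain ⟨a, ha⟩ : ∃ a : ℂ, star v ⬝ᵥ H *ᵥ (x - a • v) = 0 :=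
    ⟨(star v ⬝ᵥ H *ᵥ x) / (star v ⬝ᵥ H *ᵥ v), by
      rw [Matrix.mulVec_sub, Matrix.mulVec_smul, dotProduct_sub, dotProduct_smul, smul_eq_mul,
        div_mul_cancel₀ _ hv, sub_self]⟩
  refine ⟨a, sub_eq_zero.1 ?_⟩
  by_contra hy
  have p := h.pos _ ha hy
  obtain ⟨y, hy'⟩ : ∃ y, y = x - a • v := ⟨_, rfl⟩
  rw [← hy'] at ha hy p
  have ha' : star y ⬝ᵥ H *ᵥ v = 0 := by rw [herm_dot hH.1, ha, star_zero]
  have e : A *ᵥ y = m • H *ᵥ y + (a * (m - c)) • H *ᵥ v := by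
    rw [hy', Matrix.mulVec_sub, Matrix.mulVec_sub, Matrix.mulVec_smul, Matrix.mulVec_smul, hx,
      h.eig]
    module
  have q := hH.dotProduct_mulVec_pos hy
  rw [nq, e, dotProduct_add, dotProduct_smul, dotProduct_smul, ha', smul_zero, add_zero,
    smul_eq_mul, mul_re, ← (Complex.pos_iff.1 q).2, mul_zero, sub_zero] at p
  nlinarith [(Complex.pos_iff.1 q).1]

lemma Neg.uniq {A H : Mat n} {v x : E n} {c c' : ℝ} (h : Neg A H v c) (h' : Neg A H x c')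
    (hH : H.PosDef) : c' = c ∧ ∃ a : ℂ, a ≠ 0 ∧ x = a • v := by
  obtain ⟨a, rfl⟩ := h.par hH h'.eig (by simpa using h'.neg.le)
  have ha : a ≠ 0 := fun k => h'.ne (by rw [k, zero_smul])
  refine ⟨?_, a, ha, rfl⟩
  have e := h'.eig.symm.trans (h.smul ha).eig
  have : H *ᵥ (a • v) ≠ 0 := fun k =>
    (hH.dotProduct_mulVec_pos h'.ne).ne' (by rw [k, dotProduct_zero])
  exact_mod_cast smul_left_injective ℂ this e

/-- A matrix as a real linear map. -/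
def cl (A : Mat n) : E n →L[ℝ] E n := (Matrix.toLin' A).toContinuousLinearMap.restrictScalars ℝ

/-- The implicit function step at one point. -/
lemma loc {A H : E n → Mat n} {z v : E n} {c : ℝ} {i : Fin n} (sA : SmM A z) (sH : SmM H z)
    (hA : (A z).IsHermitian) (hH : (H z).PosDef) (h : Neg (A z) (H z) v c) (hi : v i = 1) :
    ∃ ψ : E n → E n × ℂ, ContDiffAt ℝ ∞ ψ z ∧ ψ z = (v, (c : ℂ)) ∧
      ∀ᶠ w in 𝓝 z, A w *ᵥ (ψ w).1 = (ψ w).2 • H w *ᵥ (ψ w).1 ∧ (ψ w).1 i = 1 := by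
  let f : E n × (E n × ℂ) → E n × ℂ := fun p =>
    (A p.1 *ᵥ p.2.1 - p.2.2 • H p.1 *ᵥ p.2.1, p.2.1 i)
  have cf : ContDiffAt ℝ ∞ f (z, (v, (c : ℂ))) := by
    have a1 : ∀ j k, ContDiffAt ℝ ∞ (fun p : E n × (E n × ℂ) => A p.1 j k) (z, (v, (c : ℂ))) :=
      fun j k => ContDiffAt.comp (g := fun w => A w j k) (f := Prod.fst) _ (sA j k) contDiffAt_fst
    have a2 : ∀ j k, ContDiffAt ℝ ∞ (fun p : E n × (E n × ℂ) => H p.1 j k) (z, (v, (c : ℂ))) :=
      fun j k => ContDiffAt.comp (g := fun w => H w j k) (f := Prod.fst) _ (sH j k) contDiffAt_fst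
    have a3 : ∀ k, ContDiffAt ℝ ∞ (fun p : E n × (E n × ℂ) => p.2.1 k) (z, (v, (c : ℂ))) :=
      fun k => by fun_prop
    refine ContDiffAt.prodMk (contDiffAt_pi.2 fun j => ?_) (a3 i)
    simp only [Pi.sub_apply, Pi.smul_apply, Matrix.mulVec, dotProduct, smul_eq_mul]
    exact (ContDiffAt.sum fun k _ => (a1 j k).mul (a3 k)).sub
      ((by fun_prop : ContDiffAt ℝ ∞ (fun p : E n × (E n × ℂ) => p.2.2) _).mul
        (ContDiffAt.sum fun k _ => (a2 j k).mul (a3 k)))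
  have d1 := ((cf.differentiableAt (by simp)).hasFDerivAt.comp (v, (c : ℂ))
    (hasFDerivAt_prodMk_right (𝕜 := ℝ) z (v, (c : ℂ))))
  have d2 := (((cl (A z)).comp (ContinuousLinearMap.fst ℝ (E n) ℂ)).hasFDerivAt.sub
    ((hasFDerivAt_snd (𝕜 := ℝ) (p := (v, (c : ℂ)))).smul
      ((cl (H z)).comp (ContinuousLinearMap.fst ℝ (E n) ℂ)).hasFDerivAt)).prodMk
    (((ContinuousLinearMap.proj (R := ℝ) (φ := fun _ : Fin n => ℂ) i).comp
      (ContinuousLinearMap.fst ℝ (E n) ℂ)).hasFDerivAt (x := (v, (c : ℂ))))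
  have inj : Function.Injective
      (fderiv ℝ f (z, (v, (c : ℂ))) ∘L ContinuousLinearMap.inr ℝ (E n) (E n × ℂ)) := by
    rw [d1.unique d2, injective_iff_map_eq_zero]
    rintro ⟨x, t⟩ k
    have k1 : A z *ᵥ x - ((c : ℂ) • H z *ᵥ x + t • H z *ᵥ v) = 0 := congrArg Prod.fst k
    have k2 : x i = 0 := congrArg Prod.snd k
    have k3 := congrArg (star v ⬝ᵥ ·) k1
    simp only [dotProduct_sub, dotProduct_add, dotProduct_smul, h.left hA hH.1, smul_eq_mul,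
      dotProduct_zero] at k3
    have t0 : t = 0 := (mul_eq_zero.1 (by linear_combination -k3)).resolve_right
      (hH.dotProduct_mulVec_pos h.ne).ne'
    rw [t0, zero_smul, add_zero, sub_eq_zero] at k1
    obtain ⟨a, rfl⟩ := h.par hH k1 (by simpa using h.neg.le)
    have a0 : a = 0 := by simpa [hi] using k2
    simp [a0, t0]
  have inv : (fderiv ℝ f (z, (v, (c : ℂ))) ∘L
      ContinuousLinearMap.inr ℝ (E n) (E n × ℂ)).IsInvertible :=
    ⟨(LinearEquiv.ofInjectiveEndo (fderiv ℝ f (z, (v, (c : ℂ))) ∘L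
      ContinuousLinearMap.inr ℝ (E n) (E n × ℂ)).toLinearMap inj).toContinuousLinearEquiv, rfl⟩
  refine ⟨cf.implicitFunction (by simp) inv, cf.contDiffAt_implicitFunction _ inv,
    cf.implicitFunction_apply_self _ inv,
    (cf.eventually_apply_implicitFunction (by simp) inv).mono fun w k => ⟨?_, ?_⟩⟩
  · exact sub_eq_zero.1 ((congrArg Prod.fst k).trans (sub_eq_zero.2 h.eig))
  · exact (congrArg Prod.snd k).trans hi

/-- The negative eigenvector can be chosen smooth, with one constant coordinate. -/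
theorem smooth_neg {A H : E n → Mat n} {z : E n}
    (h : ∀ᶠ w in 𝓝 z, SmM A w ∧ SmM H w ∧ (A w).IsHermitian ∧ (H w).PosDef ∧
      ∃ v c, Neg (A w) (H w) v c) :
    ∃ (V : E n → E n) (c : E n → ℝ) (i : Fin n), ∀ᶠ w in 𝓝 z, ContDiffAt ℝ ∞ V w ∧
      ContDiffAt ℝ ∞ c w ∧ V w i = 1 ∧ Neg (A w) (H w) (V w) (c w) := by
  classical
  obtain ⟨v0, c0, h0⟩ := h.self_of_nhds.2.2.2.2
  obtain ⟨i, hi⟩ := Function.ne_iff.1 h0.ne
  let p : E n → E n × ℝ → Prop := fun w q => q.1 i = 1 ∧ Neg (A w) (H w) q.1 q.2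
  let s : E n → E n × ℝ := fun w => if k : ∃ q, p w q then k.choose else 0
  have hs : ∀ w, (∃ q, p w q) → p w (s w) := fun w k => by
    simp only [s, dif_pos k]
    exact k.choose_spec
  have key : ∀ w, (∀ᶠ y in 𝓝 w, SmM A y ∧ SmM H y ∧ (A y).IsHermitian ∧ (H y).PosDef ∧
      ∃ v c, Neg (A y) (H y) v c) → (∃ q, p w q) →
      (∀ᶠ y in 𝓝 w, ∃ q, p y q) ∧ ContDiffAt ℝ ∞ s w := by
    rintro w hw ⟨q, q1, q2⟩
    obtain ⟨a1, a2, a3, a4, -⟩ := hw.self_of_nhds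
    obtain ⟨ψ, b1, b2, b3⟩ := loc a1 a2 a3 a4 q2 q1
    have b4 : ∀ᶠ y in 𝓝 w, (ψ y).2.re < 0 :=
      (continuous_re.continuousAt.comp b1.continuousAt.snd).eventually_lt continuousAt_const
        (by simpa [b2] using q2.neg)
    have b5 : ∀ᶠ y in 𝓝 w, p y ((ψ y).1, (ψ y).2.re) ∧ s y = ((ψ y).1, (ψ y).2.re) := by
      filter_upwards [hw, b3, b4] with y ⟨_, _, _, c4, v, c, c5⟩ ⟨e1, e2⟩ e3
      obtain ⟨a, ha⟩ := c5.par c4 e1 e3.le
      have a0 : a ≠ 0 := fun k => by simp [ha, k] at e2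
      have c6 := ha ▸ c5.smul a0
      have : H y *ᵥ (ψ y).1 ≠ 0 := fun k =>
        (c4.dotProduct_mulVec_pos c6.ne).ne' (by rw [k, dotProduct_zero])
      have e4 : (ψ y).2 = c := smul_left_injective ℂ this (e1.symm.trans c6.eig)
      have c7 : p y ((ψ y).1, (ψ y).2.re) := ⟨e2, by rwa [e4, ofReal_re]⟩
      obtain ⟨d1, d2⟩ := hs y ⟨_, c7⟩
      obtain ⟨d3, b, -, d4⟩ := c7.2.uniq d2 c4
      have b1 : b = 1 := by simpa [d4, e2] using d1
      exact ⟨c7, Prod.ext (by rw [d4, b1, one_smul]) d3⟩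
    exact ⟨b5.mono fun y k => ⟨_, k.1⟩, (b1.fst.prodMk
      (reCLM.contDiff.contDiffAt.comp w b1.snd)).congr_of_eventuallyEq (b5.mono fun y k => k.2)⟩
  have z0 : ∃ q, p z q := ⟨((v0 i)⁻¹ • v0, c0), by simp [inv_mul_cancel₀ hi],
    h0.smul (inv_ne_zero hi)⟩
  refine ⟨fun w => (s w).1, fun w => (s w).2, i, ?_⟩
  filter_upwards [h.eventually_nhds, (key z h z0).1] with w hw k
  exact ⟨(key w hw k).2.fst, (key w hw k).2.snd, (hs w k).1, (hs w k).2⟩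

end Pool.Agent.Lib.K86
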