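import Pool.Agent.Lib.KR86.Sel
import Pool.Agent.Lib.KR91.Cases
import Pool.Agent.Lib.KR21.Loc

/-! No null vector has negative holomorphic sectional curvature. -/

open scoped Topology ContDiff ComplexOrder Matrix
open Filter Complex Set ComplexConjugate

noncomputable section

namespace Pool.Agent.Lib.K86

open Pool.Agent.Lib.SV (E)
open Pool.Agent.Lib.HS32 Pool.Agent.Lib.KR91

variable {n : ℕ}

/-- The sesquilinear form of a matrix. -/
def sf (A : Mat n) (x y : E n) : ℂ := star y ⬝ᵥ A *ᵥ x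

section Pt

variable {H T : Mat n} {R : E n → E n → E n → E n → ℂ} {al be : ℝ}
  (h : Pk (sf H) (sf T) R al be)
include h

lemma nv_of {v : E n} (h1 : nq H v = 1) (h2 : dq (sf H) (sf T) R al be v = 0) :
    Nv (sf H) (sf T) R al be v :=
  ⟨by rw [h.hg.real v]; exact_mod_cast h1, h2⟩

lemma neg_of (hH : H.IsHermitian) (hT : T.IsHermitian) {v : E n}
    (hv : Nv (sf H) (sf T) R al be v) (h0 : (R v v v v).re < 0) :
    Neg T H v (be / al * (R v v v v).re) := by
  have pa := h.alp hv
  have pb := h.bep hv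
  refine ⟨fun k => ?_, mul_neg_of_pos_of_neg (div_pos pb pa) h0, ?_, fun y hy y0 => ?_⟩
  · simpa [k, sf] using hv.one
  · refine star_injective (funext fun i => ?_)
    have := h.eta_v hv (Pi.single i 1)
    rw [sf, sf, herm_dot' hT, herm_dot' hH, dotProduct_single_one, dotProduct_single_one] at this
    have a0 := h.al0 hv
    rw [star_smul, Pi.smul_apply, smul_eq_mul, star_def, conj_ofReal]
    push_cast
    field_simp
    linear_combination this
  · have := h.minus_eta hv hy h0.le
    have p : 0 < be * -(R v v v v).re * (sf H y y).re :=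
      mul_pos (mul_pos pb (neg_pos.2 h0)) (h.pos y y0)
    exact pos_of_mul_pos_left (b := al) (by rw [mul_comm]; exact p.trans_le this) pa.le

lemma all_neg {u v : E n} (hv : Nv (sf H) (sf T) R al be v) (h0 : (R v v v v).re < 0)
    (hu : Nv (sf H) (sf T) R al be u) : (R u u u u).re < 0 := by
  have a := h.minus hv h0.le u
  have p : 0 < 2 * be / al * -(R v v v v).re :=
    mul_pos (div_pos (by linarith [h.bep hv]) (h.alp hv)) (neg_pos.2 h0)
  rw [hu.null, hu.one, one_re] at a
  have b : normSq (sf H u v) = 1 := by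
    have : (1 - normSq (sf H u v)) ^ 2 = 0 :=
      le_antisymm (nonpos_of_mul_nonpos_right a p) (sq_nonneg _)
    linarith [pow_eq_zero_iff two_ne_zero |>.1 this]
  obtain ⟨y, hy, e⟩ := h.dec hv u
  have c := h.g_exp hv (sf H u v) hy
  rw [← e, hu.one, one_re, b] at c
  have y0 : y = 0 := by
    by_contra k
    linarith [h.pos y k]
  rw [y0, add_zero] at e
  have d : sf H u v * conj (sf H u v) = 1 := by rw [mul_conj, b, ofReal_one]
  have : R u u u u = R v v v v := by
    conv_lhs => rw [e, h.hR.smul, h.hR.smul2, h.hR.smul3, h.hR.smul4]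
    linear_combination (sf H u v * conj (sf H u v) + 1) * R v v v v * d
  rwa [this]

end Pt

lemma sf_smul (A : Mat n) (a b : ℂ) (x y : E n) :
    sf A (a • x) (b • y) = a * conj b * sf A x y := by
  simp only [sf, Matrix.mulVec_smul, star_smul, smul_dotProduct, dotProduct_smul, smul_eq_mul,
    star_def]
  ring

variable {M : Mf n} {H : M.Fam (Mat n)} {al be : ℝ}

lemma vf_dq (hH : M.Met H) (al be : ℝ) :
    VF M fun e z v => dq (sf (H e z)) (sf (-M.ric H e z)) (rm (H e) z) al be v :=
  (((vf_nq ((mHES n M).2.2.2.2.2.2.2.2.1 H hH).toForm.neg.toTen).cmul al).mul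
    (vf_nq hH.toTen)).sub ((vf_rm hH).cmul be)

/-- Step 1(b), given that the smooth null fields are holomorphic. -/
theorem no_neg [M.Cpt] (hH : M.Kae H)
    (hP : M.All fun e z => Pk (sf (H e z)) (sf (-M.ric H e z)) (rm (H e) z) al be)
    (ex : M.All fun e z => ∃ v, Nv (sf (H e z)) (sf (-M.ric H e z)) (rm (H e) z) al be v)
    (hol : ∀ e ∈ M.C, ∀ z ∈ e.target, ∀ (V : E n → E n) (i : Fin n) (κ : ℝ), 0 < κ →
      (∀ᶠ w in 𝓝 z, ContDiffAt ℝ ∞ V w ∧ V w i = 1 ∧ ∀ X,
        κ * (nq (H e w) X - normSq (star (V w) ⬝ᵥ H e w *ᵥ X) / nq (H e w) (V w)) ^ 2 ≤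
          dq (sf (H e w)) (sf (-M.ric H e w)) (rm (H e) w) al be X) →
      ∀ᶠ w in 𝓝 z, ∀ l j, dzb l (fun y => V y j) w = 0) :
    M.All fun e z => ∀ v, Nv (sf (H e z)) (sf (-M.ric H e z)) (rm (H e) z) al be v →
      0 ≤ (rm (H e) z v v v v).re := by
  intro e1 he1 z1 hz1 v1 hv1
  by_contra b
  have pa := (hP e1 he1 z1 hz1).alp hv1
  have pb := (hP e1 he1 z1 hz1).bep hv1
  have pq := div_pos pb pa
  have hT := ((mHES n M).2.2.2.2.2.2.2.2.1 H hH.toMet).toForm.neg
  obtain ⟨e, he, z, hz, V, c, i, hm, hV⟩ := sel hH.toMet hT (vf_dq hH.toMet al be)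
    ((vf_rm hH.toMet).cmul (be / al))
    (fun e he z hz => (ex e he z hz).imp fun v k => ⟨congrArg re k.one, k.null⟩)
    (fun e he z hz v h1 h2 h3 => by
      have k := nv_of (hP e he z hz) h1 h2
      have h4 := neg_of_mul_neg_right h3 pq.le
      exact ⟨neg_of (hP e he z hz) (hH.herm e he z hz) (hT.herm e he z hz) k h4, fun u u1 u2 =>
        mul_neg_of_pos_of_neg pq (all_neg (hP e he z hz) k h4 (nv_of (hP e he z hz) u1 u2))⟩)
    ⟨e1, he1, z1, hz1, v1, congrArg re hv1.one, hv1.null, mul_neg_of_pos_of_neg pq (not_le.1 b)⟩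
  obtain ⟨s1, s2, -, s3, -⟩ := hV.self_of_nhds
  have ev := e.open_target.eventually_mem hz
  refine K21.loc_contra (f := fun w => al / be * c w) (ρ := -1 / al) (c := be / al)
    (HS68.met_loc hH.toMet he hz) (HS68.clo_kl hH.toClo he hz) s1 ?_ s3.ne
    (contDiffAt_const.mul s2) (lt_trans (div_neg_of_neg_of_pos (by norm_num) pa) (by norm_num))
    (by linarith) ?_ ?_ (hm.mono fun w k => mul_le_mul_of_nonneg_left k (div_pos pa pb).le)
    (mul_neg_of_pos_of_neg (div_pos pa pb) s3.neg)
  · refine hol e he z hz V i (-(al / be * c z) * (be / al)) (mul_pos (neg_pos.2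
      (mul_neg_of_pos_of_neg (div_pos pa pb) s3.neg)) pq) ?_
    filter_upwards [hV, ev, s2.continuousAt.eventually_lt continuousAt_const
      (show c z < c z / 2 by linarith [s3.neg])] with w ⟨a1, _, a2, a3, u, a, a0, a4, a5, a6, a7⟩
      hw a8
    refine ⟨a1, a2, fun X => le_trans ?_ ((hP e he w hw).minus (nv_of (hP e he w hw) a5 a6)
      (neg_of_mul_neg_right (a7.trans_lt a3.neg) pq.le).le X)⟩
    have e1 : nq (H e w) (V w) = normSq a := by
      change (sf (H e w) (V w) (V w)).re = _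
      rw [a4, sf_smul, mul_conj, re_ofReal_mul]
      exact (congrArg _ a5).trans (mul_one _)
    have e2 : normSq (star (V w) ⬝ᵥ H e w *ᵥ X) = normSq a * normSq (sf (H e w) X u) := by
      change normSq (sf (H e w) X (V w)) = _
      rw [a4, ← one_smul ℂ X, sf_smul, one_smul, one_mul, map_mul, normSq_conj]
    rw [e1, e2, mul_div_cancel_left₀ _ (by simpa using a0)]
    refine mul_le_mul_of_nonneg_right ?_ (sq_nonneg _)
    have e3 : 2 * be / al * -(rm (H e) w u u u u).re = -2 * c w := by rw [← a7]; ring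
    have e4 : -(al / be * c z) * (be / al) = -c z := by field_simp
    linarith
  · filter_upwards [hV, ev] with w ⟨_, _, _, _, u, a, _, a4, a5, a6, a7⟩ hw X Y
    have k := nv_of (hP e he w hw) a5 a6
    have k1 := (hP e he w hw).vv k X Y
    have a0 := (hP e he w hw).al0 k
    have e3 : al / be * c w = (rm (H e) w u u u u).re := by rw [← a7]; field_simp
    change _ = _ * (_ * sf (H e w) (V w) (V w) * sf (H e w) X Y +
      _ * sf (H e w) X (V w) * sf (H e w) (V w) Y)
    have e4 := sf_smul (H e w) 1 a X u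
    have e5 := sf_smul (H e w) a 1 u Y
    rw [one_smul] at e4 e5
    rw [e3, a4, sf_smul, e4, e5, k.one, (hP e he w hw).hR.smul, (hP e he w hw).hR.smul2]
    refine mul_left_cancel₀ a0 ?_
    have i0 := mul_inv_cancel₀ a0
    push_cast
    rw [map_one]
    linear_combination a * conj a * k1 + a * conj a * ((rm (H e) w u u u u).re : ℂ) *
      (sf (H e w) X Y - sf (H e w) X u * sf (H e w) u Y) * i0
  · filter_upwards [hV] with w ⟨_, _, _, a3, _⟩
    have k := a3.eig
    have e4 : ((be / al : ℝ) : ℂ) * ((al / be * c w : ℝ) : ℂ) = c w := by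
      rw [← ofReal_mul]
      congr 1
      field_simp
    rw [e4, neg_smul, ← k, ← Matrix.neg_mulVec]
    exact congrArg (· *ᵥ V w) (neg_neg _).symm

end Pool.Agent.Lib.K86
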