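import Pool.Agent.Lib.KR86.NoNeg

/-! At every point there is a null vector with vanishing holomorphic sectional curvature. -/

open scoped Topology ContDiff ComplexOrder Matrix
open Filter Complex Set ComplexConjugate

noncomputable section

namespace Pool.Agent.Lib.K86

open Pool.Agent.Lib.SV (E)
open Pool.Agent.Lib.HS32 Pool.Agent.Lib.KR91

variable {n : ℕ}

lemma homog {H T : Mat n} {R : E n → E n → E n → E n → ℂ} (hR : Kt R) (hH : H.PosDef)
    {a be c : ℝ} (h : ∀ v, nq H v = 1 → c ≤ dq (sf H) (sf T) R a be v) (X : E n) :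
    c * nq H X ^ 2 ≤ dq (sf H) (sf T) R a be X := by
  have key : ∀ (t : ℝ) v, dq (sf H) (sf T) R a be ((t : ℂ) • v) =
      (t ^ 2) ^ 2 * dq (sf H) (sf T) R a be v := fun t v => by
    simp only [dq, sf_smul, hR.smul, hR.smul2, hR.smul3, hR.smul4, conj_ofReal, mul_assoc,
      re_ofReal_mul]
    ring
  by_cases X0 : X = 0
  · have := key 0 X
    rw [ofReal_zero, zero_smul] at this
    rw [X0, this]
    simp [nq]
  have p : 0 < nq H X := hH.re_dotProduct_pos X0
  have k := h (((√(nq H X))⁻¹ : ℝ) • X) (by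
    rw [BBD.nq_smul, inv_pow, Real.sq_sqrt p.le, inv_mul_cancel₀ p.ne'])
  rw [← coe_smul, key, inv_pow, Real.sq_sqrt p.le, inv_pow, ← div_eq_inv_mul] at k
  exact (le_div_iff₀ (by positivity)).1 k

variable {M : Mf n} {H : M.Fam (Mat n)} {al be : ℝ}

/-- Step 1(a): a null vector at every point. -/
lemma null_ex [M.Cpt] (hH : M.Met H) (hR : M.All fun e z => Kt (rm (H e) z)) {a : ℝ}
    (h0 : M.All fun e z => ∀ X, 0 ≤ dq (sf (H e z)) (sf (-M.ric H e z)) (rm (H e) z) a be X)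
    (null : ∀ c : M.X → ℝ, M.Sm c → (∀ x, 0 ≤ c x) → (M.All fun e z => ∀ X,
      c (e.symm z) * nq (H e z) X ^ 2 ≤ dq (sf (H e z)) (sf (-M.ric H e z)) (rm (H e) z) a be X) →
      ∀ x, c x ≤ 0) :
    M.All fun e z => ∃ v, nq (H e z) v = 1 ∧
      dq (sf (H e z)) (sf (-M.ric H e z)) (rm (H e) z) a be v = 0 := by
  intro e he z hz
  by_contra k
  obtain ⟨c, c1, c2, c3, c4⟩ := bump hH (vf_dq hH a be) (fun e he z hz v _ => h0 e he z hz v) he hz
    fun v h1 h2 => k ⟨v, h1, h2⟩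
  exact (null c c1 c2 (fun e he z hz => homog (hR e he z hz) (hH.pos e he z hz) (c4 e he z hz))
    _).not_gt c3

/-- Section 1, given the vanishing of the lower bounds and the holomorphy of null fields. -/
theorem sec1 [M.Cpt] (hH : M.Kae H)
    (hP : M.All fun e z => Pk (sf (H e z)) (sf (-M.ric H e z)) (rm (H e) z) al be)
    (null : ∀ a : ℝ, al ≤ a → ∀ c : M.X → ℝ, M.Sm c → (∀ x, 0 ≤ c x) → (M.All fun e z => ∀ X,
      c (e.symm z) * nq (H e z) X ^ 2 ≤ dq (sf (H e z)) (sf (-M.ric H e z)) (rm (H e) z) a be X) →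
      ∀ x, c x ≤ 0)
    (hol : ∀ e ∈ M.C, ∀ z ∈ e.target, ∀ (V : E n → E n) (i : Fin n) (κ : ℝ), 0 < κ →
      (∀ᶠ w in 𝓝 z, ContDiffAt ℝ ∞ V w ∧ V w i = 1 ∧ ∀ X,
        κ * (nq (H e w) X - normSq (star (V w) ⬝ᵥ H e w *ᵥ X) / nq (H e w) (V w)) ^ 2 ≤
          dq (sf (H e w)) (sf (-M.ric H e w)) (rm (H e) w) al be X) →
      ∀ᶠ w in 𝓝 z, ∀ l j, dzb l (fun y => V y j) w = 0) :
    M.All fun e z => ∃ v, Nv (sf (H e z)) (sf (-M.ric H e z)) (rm (H e) z) al be v ∧
      (rm (H e) z v v v v).re = 0 := by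
  have hR : M.All fun e z => Kt (rm (H e) z) := fun e he z hz => (hP e he z hz).hR
  have ex : M.All fun e z => ∃ v, Nv (sf (H e z)) (sf (-M.ric H e z)) (rm (H e) z) al be v :=
    fun e he z hz => (null_ex hH.toMet hR (fun e he z hz => (hP e he z hz).dq_nn)
      (null al le_rfl) e he z hz).imp fun v k => nv_of (hP e he z hz) k.1 k.2
  have nn := no_neg hH hP ex hol
  intro e he z hz
  obtain ⟨v, hv⟩ := ex e he z hz
  have pa := (hP e he z hz).alp hv
  have pb := (hP e he z hz).bep hv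
  obtain ⟨u, u1, u2⟩ := null_ex hH.toMet hR (a := al + al / (12 * be)) (fun e he z hz X => by
    obtain ⟨v, hv⟩ := ex e he z hz
    have a := nn e he z hz v hv
    exact le_trans (by positivity) ((hP e he z hz).plus hv a X))
    (null _ (le_add_of_nonneg_right (by positivity))) e he z hz
  have k := (hP e he z hz).plus hv (nn e he z hz v hv) u
  rw [u2, show (sf (H e z) u u).re = 1 from u1] at k
  exact ⟨v, hv, le_antisymm (by linarith) (nn e he z hz v hv)⟩

end Pool.Agent.Lib.K86
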