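import Pool.Agent.Lib.HS32.MAll
import Pool.Agent.Lib.KR86.Eig

/-! Continuous functions on the unit sphere bundle of a compact Hermitian manifold. -/

open scoped Topology ContDiff ComplexOrder Matrix
open Filter Complex Set Metric

noncomputable section

namespace Pool.Agent.Lib.K86

open Pool.Agent.Lib.SV (E)
open Pool.Agent.Lib.HS32

variable {n : ℕ}

lemma cont_sq {X : Type} [TopologicalSpace X] {T : X → Mat n} {a b : X → E n} {x : X}
    (h : ∀ i j, ContinuousAt (fun y => T y i j) x) (ha : ContinuousAt a x)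
    (hb : ContinuousAt b x) : ContinuousAt (fun y => star (a y) ⬝ᵥ T y *ᵥ b y) x := by
  simp only [dotProduct, Matrix.mulVec]
  exact tendsto_finsetSum _ fun i _ => ContinuousAt.mul (f := fun y => star (a y) i)
    (continuousAt_pi.1 ha.star i) (tendsto_finsetSum _ fun j _ =>
      ContinuousAt.mul (h i j) (continuousAt_pi.1 hb j))

lemma cont_fst {T : E n → Mat n} {z : E n} (h : SmM T z) (v : E n) (i j : Fin n) :
    ContinuousAt (fun p : E n × E n => T p.1 i j) (z, v) :=
  ContinuousAt.comp (g := fun w => T w i j) (h i j).continuousAt continuousAt_fst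

lemma cont_nq {T : E n → Mat n} {z : E n} (h : SmM T z) (v : E n) :
    ContinuousAt (fun p : E n × E n => nq (T p.1) p.2) (z, v) :=
  continuous_re.continuousAt.comp (cont_sq (cont_fst h v) continuousAt_snd continuousAt_snd)

/-- Unit vectors are bounded near a point. -/
lemma unit_bd {H : E n → Mat n} {z : E n} (hs : SmM H z) (hp : (H z).PosDef) :
    ∃ R, ∀ᶠ w in 𝓝 z, ∀ v, nq (H w) v = 1 → v ∈ closedBall (0 : E n) R := by
  obtain ⟨c, c0, hc⟩ := BBD.low isCompact_singleton (T := H) (K := {z}) (by simpa) (by simpa)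
  have := (isCompact_sphere (0 : E n) 1).eventually_forall_of_forall_eventually (x₀ := z)
    (P := fun w v => c / 2 < nq (H w) v) fun v hv => continuousAt_const.eventually_lt
      (cont_nq hs v) (by
        have := hc z rfl v
        rw [mem_sphere_zero_iff_norm.1 hv] at this
        show c / 2 < nq (H z) v
        linarith)
  refine ⟨1 + 2 / c, this.mono fun w hw v hv => mem_closedBall_zero_iff.2 ?_⟩
  by_cases h0 : ‖v‖ = 0
  · rw [h0]
    positivity
  have k := hw (‖v‖⁻¹ • v) (by simp [norm_smul, h0])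
  rw [BBD.nq_smul, hv, mul_one, inv_pow, lt_inv_comm₀ (by positivity) (by positivity),
    inv_div] at k
  nlinarith [sq_nonneg (‖v‖ - 1), norm_nonneg v, div_pos two_pos c0]

/-- An open property of the unit vectors at a point holds at all nearby points. -/
lemma near {H : E n → Mat n} {z : E n} (hs : SmM H z) (hp : (H z).PosDef) {p : E n → E n → Prop}
    (h : ∀ v, nq (H z) v = 1 → ∀ᶠ q : E n × E n in 𝓝 (z, v), p q.1 q.2) :
    ∀ᶠ w in 𝓝 z, ∀ v, nq (H w) v = 1 → p w v := by
  obtain ⟨R, hR⟩ := unit_bd hs hp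
  have := (isCompact_closedBall (0 : E n) R).eventually_forall_of_forall_eventually (x₀ := z)
    (P := fun w v => nq (H w) v = 1 → p w v) fun v _ => by
      by_cases k : nq (H z) v = 1
      · exact (h v k).mono fun q a _ => a
      · exact ((cont_nq hs v).eventually_ne k).mono fun q a b => absurd b a
  filter_upwards [hR, this] with w a b v hv using b v (a v hv) hv

variable {M : Mf n} {H T : M.Fam (Mat n)} {D F : M.Fam (E n → ℝ)}

/-- A continuous function on the tangent bundle. -/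
structure VF (M : Mf n) (Φ : M.Fam (E n → ℝ)) : Prop where
  cont : M.All fun e z => ∀ v, ContinuousAt (fun p : E n × E n => Φ e p.1 p.2) (z, v)
  inv : M.Ov fun e e' x => ∀ v, Φ e' (e' x) v = Φ e (e x) (M.J e e' x *ᵥ v)

lemma vf_nq (hT : M.Ten T) : VF M fun e z v => nq (T e z) v :=
  ⟨fun e he z hz => cont_nq (hT.sm e he z hz), fun e he e' he' x h h' v => by
    rw [hT.cmp e he e' he' x h h', BBD.nq_conj]⟩

lemma vf_rm (hH : M.Met H) : VF M fun e z v => (rm (H e) z v v v v).re := by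
  refine ⟨fun e he z hz v => continuous_re.continuousAt.comp ?_, fun e he e' he' x h h' v => ?_⟩
  · simp only [rm]
    refine tendsto_finsetSum _ fun k _ => tendsto_finsetSum _ fun l _ =>
      ContinuousAt.mul (f := fun p : E n × E n => p.2 k * star (p.2 l)) (by fun_prop) ?_
    exact cont_sq (T := fun p : E n × E n => H e p.1 * th (H e) k l p.1) (cont_fst
      ((hH.sm e he z hz).mul ((hH.sm e he z hz).th (hH.det_ne e he z hz) k l)) v)
      continuousAt_snd continuousAt_snd
  · obtain ⟨a1, a2, -, a3, -⟩ := (mTR n M).2.1 e he e' he' x h h'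
    have b : (e ∘ e'.symm) (e' x) = e x := by simp [e'.left_inv h']
    have := ((mPB n (e ∘ e'.symm) (e' x) (H e) (H e') a1 a2 (b ▸ hH.sm e he _ (e.map_source h))
      (a3.mono fun w k => by
        have := hH.cmp e he e' he' _ k.2.1 k.2.2.1
        beta_reduce at this
        rw [k.2.2.2.2.2.1, k.2.2.2.2.2.2] at this
        exact this)).2.2 (b ▸ hH.det_ne e he _ (e.map_source h))).2.2.1 v v v v
    rw [this, b]
    rfl

lemma vf_fun {f : M.X → ℝ} (hf : Continuous f) : VF M fun e z _ => f (e.symm z) :=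
  ⟨fun e _ z hz v => hf.continuousAt.comp (ContinuousAt.comp (g := e.symm)
    (e.continuousAt_symm hz) continuousAt_fst), fun e _ e' _ x h h' v => by
      simp only [e.left_inv h, e'.left_inv h']⟩

lemma VF.op (hD : VF M D) (hF : VF M F) {g : ℝ → ℝ → ℝ} (hg : Continuous g.uncurry) :
    VF M fun e z v => g (D e z v) (F e z v) :=
  ⟨fun e he z hz v => hg.continuousAt.comp₂ (hD.cont e he z hz v) (hF.cont e he z hz v),
    fun e he e' he' x h h' v => by
      simp only [hD.inv e he e' he' x h h' v, hF.inv e he e' he' x h h' v]⟩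

lemma VF.add (hD : VF M D) (hF : VF M F) : VF M fun e z v => D e z v + F e z v :=
  hD.op hF continuous_add

lemma VF.sub (hD : VF M D) (hF : VF M F) : VF M fun e z v => D e z v - F e z v :=
  hD.op hF continuous_sub

lemma VF.mul (hD : VF M D) (hF : VF M F) : VF M fun e z v => D e z v * F e z v :=
  hD.op hF continuous_mul

lemma VF.cmul (c : ℝ) (hD : VF M D) : VF M fun e z v => c * D e z v :=
  (vf_fun (f := fun _ => c) continuous_const).mul hD

/-- The minimum over the null vectors is attained. -/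
theorem exists_min [M.Cpt] (hH : M.Met H) (hD : VF M D) (hF : VF M F)
    (ne : ∃ e ∈ M.C, ∃ z ∈ e.target, ∃ v, nq (H e z) v = 1 ∧ D e z v = 0) :
    ∃ e ∈ M.C, ∃ z ∈ e.target, ∃ v, nq (H e z) v = 1 ∧ D e z v = 0 ∧
      M.All fun e' z' => ∀ v', nq (H e' z') v' = 1 → D e' z' v' = 0 → F e z v ≤ F e' z' v' := by
  obtain ⟨V, -⟩ := (mCOV n M).2.2.1
  have hs : ∀ a, closedBall (V.c a) (V.ρ a) ⊆ (V.e a).target := fun a =>
    (closedBall_subset_closedBall (by linarith [V.pos a])).trans (V.sub a)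
  let S : Fin V.r → Set (E n × E n) := fun a => {p | p.1 ∈ closedBall (V.c a) (V.ρ a) ∧
    nq (H (V.e a) p.1) p.2 = 1 ∧ D (V.e a) p.1 p.2 = 0}
  have cS : ∀ a, IsCompact (S a) := fun a => by
    obtain ⟨c, c0, hc⟩ := BBD.low (isCompact_closedBall (V.c a) (V.ρ a))
      (fun z hz => hH.sm _ (V.mem a) z (hs a hz)) fun z hz => hH.pos _ (V.mem a) z (hs a hz)
    refine ((isCompact_closedBall (V.c a) (V.ρ a)).prod
      (isCompact_closedBall (0 : E n) (1 + 1 / c))).of_isClosed_subset ?_ fun p hp => ⟨hp.1, ?_⟩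
    · have := ContinuousOn.preimage_isClosed_of_isClosed
        (f := fun p : E n × E n => (nq (H (V.e a) p.1) p.2, D (V.e a) p.1 p.2))
        (s := Prod.fst ⁻¹' closedBall (V.c a) (V.ρ a)) (t := {(1, 0)})
        (fun p hp => ((cont_nq (hH.sm _ (V.mem a) _ (hs a hp)) p.2).prodMk
          (hD.cont _ (V.mem a) _ (hs a hp) p.2)).continuousWithinAt)
        (isClosed_closedBall.preimage continuous_fst) isClosed_singleton
      convert this using 1
      ext p
      simp [S]
    · have k := hc _ hp.1 p.2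
      rw [hp.2.1, ← le_div_iff₀' c0] at k
      exact mem_closedBall_zero_iff.2 (by
        nlinarith [sq_nonneg (‖p.2‖ - 1), norm_nonneg p.2, div_pos one_pos c0])
  have cU : IsCompact (⋃ a, (fun p : E n × E n => F (V.e a) p.1 p.2) '' S a) :=
    isCompact_iUnion fun a => (cS a).image_of_continuousOn fun p hp =>
      (hF.cont _ (V.mem a) _ (hs a hp.1) p.2).continuousWithinAt
  have mem : M.All fun e z => ∀ v, nq (H e z) v = 1 → D e z v = 0 →
      F e z v ∈ ⋃ a, (fun p : E n × E n => F (V.e a) p.1 p.2) '' S a := by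
    refine Mf.allOn_of_source fun e he x hx v h1 h2 => ?_
    obtain ⟨a, a1, a2, -⟩ := V.cov x
    exact mem_iUnion.2 ⟨a, (V.e a x, M.J (V.e a) e x *ᵥ v), ⟨ball_subset_closedBall a2,
      ((vf_nq hH.toTen).inv _ (V.mem a) e he x a1 hx v).symm.trans h1,
      (hD.inv _ (V.mem a) e he x a1 hx v).symm.trans h2⟩, (hF.inv _ (V.mem a) e he x a1 hx v).symm⟩
  obtain ⟨e, he, z, hz, v, h1, h2⟩ := ne
  obtain ⟨m, m1, m2⟩ := cU.exists_isLeast ⟨_, mem e he z hz v h1 h2⟩
  obtain ⟨a, p, hp, rfl⟩ := mem_iUnion.1 m1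
  exact ⟨_, V.mem a, p.1, hs a hp.1, p.2, hp.2.1, hp.2.2,
    fun e he z hz v h1 h2 => m2 (mem e he z hz v h1 h2)⟩

/-- A function that is positive on the unit vectors at a point has a positive lower bound nearby. -/
theorem gap (hH : M.Met H) (hD : VF M D) {e : M.Ch} (he : e ∈ M.C) {z : E n} (hz : z ∈ e.target)
    (h : ∀ v, nq (H e z) v = 1 → 0 < D e z v) :
    ∃ c, 0 < c ∧ ∀ᶠ w in 𝓝 z, ∀ v, nq (H e w) v = 1 → c < D e w v := by
  obtain ⟨R, hR⟩ := unit_bd (hH.sm e he z hz) (hH.pos e he z hz)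
  have c1 : Continuous fun v => nq (H e z) v := continuous_iff_continuousAt.2 fun v =>
    (cont_nq (hH.sm e he z hz) v).comp (f := fun v => (z, v)) (by fun_prop)
  have c2 : Continuous fun v => D e z v := continuous_iff_continuousAt.2 fun v =>
    (hD.cont e he z hz v).comp (f := fun v => (z, v)) (by fun_prop)
  obtain ⟨c, c0, hc⟩ := ((isCompact_closedBall (0 : E n) R).of_isClosed_subset
    (isClosed_eq c1 continuous_const) hR.self_of_nhds).exists_forall_le' c2.continuousOn h
  exact ⟨c / 2, by positivity, near (hH.sm e he z hz) (hH.pos e he z hz) fun v hv =>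
    continuousAt_const.eventually_lt (hD.cont e he z hz v) (by
      have := hc v hv
      show c / 2 < D e z v
      linarith)⟩

/-- A smooth lower bound that is positive at a point without null vectors. -/
theorem bump [M.Cpt] (hH : M.Met H) (hD : VF M D)
    (h0 : M.All fun e z => ∀ v, nq (H e z) v = 1 → 0 ≤ D e z v) {e : M.Ch} (he : e ∈ M.C)
    {z : E n} (hz : z ∈ e.target) (h : ∀ v, nq (H e z) v = 1 → D e z v ≠ 0) :
    ∃ c : M.X → ℝ, M.Sm c ∧ (∀ x, 0 ≤ c x) ∧ 0 < c (e.symm z) ∧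
      M.All fun e' z' => ∀ v, nq (H e' z') v = 1 → c (e'.symm z') ≤ D e' z' v := by
  obtain ⟨c, c0, hc⟩ := gap hH hD he hz fun v hv => (h0 e he z hz v hv).lt_of_ne' (h v hv)
  have hx := e.map_target hz
  have ev : ∀ᶠ x in 𝓝 (e.symm z), x ∈ e.source ∧ ∀ v, nq (H e (e x)) v = 1 → c < D e (e x) v :=
    (e.open_source.eventually_mem hx).and ((e.continuousAt hx).eventually
      (p := fun w => ∀ v, nq (H e w) v = 1 → c < D e w v) (by rwa [e.right_inv hz]))
  obtain ⟨O, hO, oO, xO⟩ := eventually_nhds_iff.1 ev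
  obtain ⟨χ, a1, a2, a3, a4⟩ := (mCOV n M).2.2.2.2.2 {e.symm z} O isClosed_singleton oO (by simpa)
  refine ⟨fun x => c * χ x, a1.const_mul c, fun x => mul_nonneg c0.le (a2 x).1, ?_,
    Mf.allOn_of_source fun e' he' x hx' v hv => ?_⟩
  · simpa [a3.self_of_nhdsSet _ rfl] using c0
  · rw [e'.left_inv hx']
    by_cases k : χ x = 0
    · simpa [k] using h0 e' he' _ (e'.map_source hx') v hv
    · obtain ⟨b1, b2⟩ := hO x (a4 (subset_tsupport _ k))
      have := b2 _ (((vf_nq hH.toTen).inv e he e' he' x b1 hx' v).symm.trans hv)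
      rw [← hD.inv e he e' he' x b1 hx' v] at this
      nlinarith [a2 x]

/-- The smooth null field near a minimum point. -/
theorem sel [M.Cpt] (hH : M.Met H) (hT : M.Form T) (hD : VF M D) (hF : VF M F)
    (ex : M.All fun e z => ∃ v, nq (H e z) v = 1 ∧ D e z v = 0)
    (neg : M.All fun e z => ∀ v, nq (H e z) v = 1 → D e z v = 0 → F e z v < 0 →
      Neg (T e z) (H e z) v (F e z v) ∧ ∀ u, nq (H e z) u = 1 → D e z u = 0 → F e z u < 0)
    (bad : ∃ e ∈ M.C, ∃ z ∈ e.target, ∃ v, nq (H e z) v = 1 ∧ D e z v = 0 ∧ F e z v < 0) :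
    ∃ e ∈ M.C, ∃ z ∈ e.target, ∃ (V : E n → E n) (c : E n → ℝ) (i : Fin n), IsLocalMin c z ∧
      ∀ᶠ w in 𝓝 z, ContDiffAt ℝ ∞ V w ∧ ContDiffAt ℝ ∞ c w ∧ V w i = 1 ∧
        Neg (T e w) (H e w) (V w) (c w) ∧ ∃ (u : E n) (a : ℂ), a ≠ 0 ∧ V w = a • u ∧
          nq (H e w) u = 1 ∧ D e w u = 0 ∧ F e w u = c w := by
  obtain ⟨e1, he1, z1, hz1, v1, b1, b2, b3⟩ := bad
  obtain ⟨e, he, z, hz, v, h1, h2, h3⟩ := exists_min hH hD hF ⟨e1, he1, z1, hz1, v1, b1, b2⟩
  have h4 := (neg e he z hz v h1 h2 ((h3 e1 he1 z1 hz1 v1 b1 b2).trans_lt b3))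
  have h5 : ∀ᶠ w in 𝓝 z, ∀ u, nq (H e w) u = 1 → D e w u = 0 → F e w u < 0 :=
    near (hH.sm e he z hz) (hH.pos e he z hz) fun u hu => by
      by_cases k : D e z u = 0
      · exact ((hF.cont e he z hz u).eventually_lt continuousAt_const (h4.2 u hu k)).mono
          fun q a _ => a
      · exact ((hD.cont e he z hz u).eventually_ne k).mono fun q a b => absurd b a
  have h6 : ∀ᶠ w in 𝓝 z, w ∈ e.target ∧ ∃ u, nq (H e w) u = 1 ∧ D e w u = 0 ∧
      Neg (T e w) (H e w) u (F e w u) := by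
    filter_upwards [e.open_target.eventually_mem hz, h5] with w a b
    obtain ⟨u, u1, u2⟩ := ex e he w a
    exact ⟨a, u, u1, u2, (neg e he w a u u1 u2 (b u u1 u2)).1⟩
  obtain ⟨V, c, i, h7⟩ := smooth_neg (A := T e) (H := H e) (z := z) (h6.mono
    fun w ⟨a, u, _, _, b⟩ => ⟨hT.sm e he w a, hH.sm e he w a, hT.herm e he w a, hH.pos e he w a,
      u, _, b⟩)
  have c0 := (h4.1.uniq h7.self_of_nhds.2.2.2 (hH.pos e he z hz)).1
  refine ⟨e, he, z, hz, V, c, i, ?_, ?_⟩
  · filter_upwards [h6, h7] with w ⟨a, u, u1, u2, b⟩ k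
    rw [c0, (b.uniq k.2.2.2 (hH.pos e he w a)).1]
    exact h3 e he w a u u1 u2
  · filter_upwards [h6, h7] with w ⟨a, u, u1, u2, b⟩ k
    obtain ⟨d1, s, s0, d2⟩ := b.uniq k.2.2.2 (hH.pos e he w a)
    exact ⟨k.1, k.2.1, k.2.2.1, k.2.2.2, u, s, s0, d2, u1, u2, d1.symm⟩

end Pool.Agent.Lib.K86
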